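import Pool.Agent.helper84.WZ.SpecB

/-!
# Project wz, module ME: existence of a minimal idempotent
-/

set_option autoImplicit false

namespace WZ

open Filter

theorem ME (hMI : MI_stmt) (hUM : UM_stmt) : ME_stmt := by
  obtain ⟨-, hpure, hmul, hval, -, hclosed, -⟩ := hUM
  have h1 : (pure 1 : Ultrafilter W) ∈ UV 1 := by
    have h := hval 1
    rwa [map_one] at h
  have h2 : (pure 1 : Ultrafilter W) * pure 1 = pure 1 := (hpure W 1 1 (pure 1)).2.1
  obtain ⟨ρ, hρ, hidem, -, hmin⟩ := hMI (Ultrafilter W)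
    (fun r => Ultrafilter.continuous_mul_left r) (UV 1) (pure 1) (hclosed 1)
    (fun p hp q hq => by
      have h := hmul 1 1 p q hp hq
      rwa [one_mul] at h) h1 h2
  exact ⟨ρ, hρ, hidem, hmin⟩

end WZ
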