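import Pool.Agent.helper84.WZ.SpecA

/-!
# Project wz, module GEN: genericity of the realisation (base `R` digits)
-/

set_option autoImplicit false

namespace WZ

open Filter

theorem GEN_digits (R K C : ℤ) (hK : K < R) (hC : C < R) (hC0 : 0 ≤ C) :
    ∀ (N : ℕ) (c : ℕ → ℤ), (∀ q, |c q| ≤ K) →
      |∑ q ∈ Finset.range N, c q * R ^ (q + 1)| ≤ C → ∀ q, q < N → c q = 0 := by
  have hR : 0 < R := lt_of_le_of_lt hC0 hC
  have hzero : ∀ x y : ℤ, y < R → |R * x| ≤ y → x = 0 := by
    intro x y hy hx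
    by_contra hne
    have h1 : 1 ≤ |x| := Int.one_le_abs hne
    rw [abs_mul, abs_of_pos hR] at hx
    nlinarith
  intro N
  induction N with
  | zero => intro c _ _ q hq; exact absurd hq (Nat.not_lt_zero q)
  | succ N ih =>
    intro c hc hs q hq
    have e : ∑ q ∈ Finset.range (N + 1), c q * R ^ (q + 1) =
        R * (∑ q ∈ Finset.range N, c (q + 1) * R ^ (q + 1) + c 0) := by
      rw [Finset.sum_range_succ', mul_add, Finset.mul_sum]
      congr 1
      · refine Finset.sum_congr rfl fun q _ => ?_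
        ring
      · ring
    rw [e] at hs
    have h0 := hzero _ _ hC hs
    have e2 : ∑ q ∈ Finset.range N, c (q + 1) * R ^ (q + 1) =
        R * ∑ q ∈ Finset.range N, c (q + 1) * R ^ q := by
      rw [Finset.mul_sum]
      refine Finset.sum_congr rfl fun q _ => ?_
      ring
    have h1 : c 0 = R * (-∑ q ∈ Finset.range N, c (q + 1) * R ^ q) := by
      rw [e2] at h0
      linarith
    have h2 : -∑ q ∈ Finset.range N, c (q + 1) * R ^ q = 0 := by
      refine hzero _ K hK ?_
      rw [← h1]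
      exact hc 0
    have h3 : c 0 = 0 := by rw [h1, h2, mul_zero]
    have h4 : |∑ q ∈ Finset.range N, c (q + 1) * R ^ (q + 1)| ≤ C := by
      have : ∑ q ∈ Finset.range N, c (q + 1) * R ^ (q + 1) = 0 := by
        rw [h3, add_zero] at h0
        exact h0
      rw [this, abs_zero]
      exact hC0
    rcases q with _ | q
    · exact h3
    · exact ih (fun q => c (q + 1)) (fun q => hc (q + 1)) h4 q (by omega)

theorem GEN_block (m : ℕ) (f : ℕ → ℤ) (n : ℕ) :
    ∑ q ∈ Finset.range (n * m), f q =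
      ∑ p ∈ Finset.range n, ∑ u ∈ Finset.range m, f (p * m + u) := by
  induction n with
  | zero => simp
  | succ n ih =>
    rw [Finset.sum_range_succ, ← ih, Nat.succ_mul, Finset.sum_range_add]

theorem GEN_even (G : ℕ → ℤ) (g : ℕ) :
    ∑ u ∈ Finset.range (2 * g), G u =
      ∑ i ∈ Finset.range g, G (2 * i + 0) + ∑ i ∈ Finset.range g, G (2 * i + 1) := by
  induction g with
  | zero => simp
  | succ g ih =>
    rw [show 2 * (g + 1) = 2 * g + 1 + 1 by ring, Finset.sum_range_succ, Finset.sum_range_succ, ih,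
      Finset.sum_range_succ, Finset.sum_range_succ, add_zero]
    ring

/-- the coefficient of `R ^ (q + 1)` -/
def GEN_c (h : ℕ) (s : W) (φ : ℕ → ℤ) (q : ℕ) : ℤ :=
  match s.toList[q / (2 * h + 2)]? with
  | some (Lt.k _) =>
    if q % (2 * h + 2) < 2 * h - 2 then
      φ q + φ (q / (2 * h + 2) * (2 * h + 2) + (2 * h - 2 + q % (2 * h + 2) % 2)) else 0
  | _ => 0

theorem GEN_c_le (h H : ℕ) (s : W) (φ : ℕ → ℤ) (hφ : ∀ q, |φ q| ≤ H) (q : ℕ) :
    |GEN_c h s φ q| ≤ 2 * H := by
  unfold GEN_c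
  split
  · split_ifs
    · refine (abs_add_le _ _).trans ?_
      have h1 := hφ q
      have h2 := hφ (q / (2 * h + 2) * (2 * h + 2) + (2 * h - 2 + q % (2 * h + 2) % 2))
      linarith
    · rw [abs_zero]; positivity
  · rw [abs_zero]; positivity

theorem GEN_pos (h n H D R : ℕ) (hh : 3 ≤ h) (hR : D * n + 1 ≤ R) (s : W) (hB : Box n s)
    (φ : ℕ → ℤ) (hφ : ∀ q, |φ q| ≤ H) (p : ℕ) :
    |∑ u ∈ Finset.range (2 * h + 2), (φ (p * (2 * h + 2) + u) *
        (ex h R D s (p * (2 * h + 2) + u) : ℤ) -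
      GEN_c h s φ (p * (2 * h + 2) + u) * (R : ℤ) ^ (p * (2 * h + 2) + u + 1))| ≤
      H * (1 + 2 * (D * n)) := by
  obtain ⟨g, rfl⟩ : ∃ g, h = g + 1 := ⟨h - 1, by omega⟩
  have hH0 : (0 : ℤ) ≤ H := Int.natCast_nonneg H
  have hDn : (0 : ℤ) ≤ (D : ℤ) * n := by positivity
  have hdiv : ∀ u, u < 2 * (g + 1) + 2 → (p * (2 * (g + 1) + 2) + u) / (2 * (g + 1) + 2) = p := by
    intro u hu
    rw [Nat.add_comm, Nat.add_mul_div_right _ _ (by omega), Nat.div_eq_of_lt hu, Nat.zero_add]
  have hmod : ∀ u, u < 2 * (g + 1) + 2 → (p * (2 * (g + 1) + 2) + u) % (2 * (g + 1) + 2) = u := by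
    intro u hu
    rw [Nat.add_comm, Nat.add_mul_mod_self_right, Nat.mod_eq_of_lt hu]
  have hg : 2 * (g + 1) - 2 = 2 * g := by omega
  have hg1 : 2 * (g + 1) - 1 = 2 * g + 1 := by omega
  -- evaluation
  have hex : ∀ u, u < 2 * (g + 1) + 2 → ∀ x, s.toList[p]? = some x →
      ex (g + 1) R D s (p * (2 * (g + 1) + 2) + u) = exl (g + 1) R D p x u := by
    intro u hu x hx
    unfold ex
    rw [hdiv u hu, hmod u hu, hx]
  have hex0 : ∀ u, u < 2 * (g + 1) + 2 → s.toList[p]? = none →
      ex (g + 1) R D s (p * (2 * (g + 1) + 2) + u) = 0 := by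
    intro u hu hx
    unfold ex
    rw [hdiv u hu, hx]
  have hc0 : ∀ u, u < 2 * (g + 1) + 2 → (∀ v, s.toList[p]? ≠ some (Lt.k v)) →
      GEN_c (g + 1) s φ (p * (2 * (g + 1) + 2) + u) = 0 := by
    intro u hu hx
    unfold GEN_c
    rw [hdiv u hu]
    split
    · rename_i v hv
      exact absurd hv (hx v)
    · rfl
  rcases hx : s.toList[p]? with _ | x
  · -- no letter
    have : ∑ u ∈ Finset.range (2 * (g + 1) + 2), (φ (p * (2 * (g + 1) + 2) + u) *
        (ex (g + 1) R D s (p * (2 * (g + 1) + 2) + u) : ℤ) -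
      GEN_c (g + 1) s φ (p * (2 * (g + 1) + 2) + u) *
        (R : ℤ) ^ (p * (2 * (g + 1) + 2) + u + 1)) = 0 := by
      refine Finset.sum_eq_zero fun u hu => ?_
      rw [Finset.mem_range] at hu
      rw [hex0 u hu hx, hc0 u hu (fun v => by rw [hx]; exact (Option.some_ne_none _).symm)]
      simp
    rw [this, abs_zero]
    positivity
  · rcases x with b | v
    · -- the letter `c` or `c⁻¹`
      have hc : ∀ u, u < 2 * (g + 1) + 2 →
          GEN_c (g + 1) s φ (p * (2 * (g + 1) + 2) + u) = 0 := fun u hu =>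
        hc0 u hu (fun v hv => by rw [hx] at hv; injection hv with h1; cases h1)
      obtain ⟨w, hw, hwe⟩ : ∃ w, w < 2 * (g + 1) + 2 ∧ ∀ u,
          exl (g + 1) R D p (Lt.c b) u = if u = w then 1 else 0 := by
        cases b with
        | true => exact ⟨2 * (g + 1), by omega, fun u => rfl⟩
        | false => exact ⟨2 * (g + 1) + 1, by omega, fun u => rfl⟩
      have : ∑ u ∈ Finset.range (2 * (g + 1) + 2), (φ (p * (2 * (g + 1) + 2) + u) *
          (ex (g + 1) R D s (p * (2 * (g + 1) + 2) + u) : ℤ) -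
        GEN_c (g + 1) s φ (p * (2 * (g + 1) + 2) + u) *
          (R : ℤ) ^ (p * (2 * (g + 1) + 2) + u + 1)) = φ (p * (2 * (g + 1) + 2) + w) := by
        rw [Finset.sum_eq_single w]
        · rw [hex w hw _ hx, hc w hw, hwe w, if_pos rfl]
          simp
        · intro u hu hne
          rw [Finset.mem_range] at hu
          rw [hex u hu _ hx, hc u hu, hwe u, if_neg hne]
          simp
        · intro hw'
          exact absurd (Finset.mem_range.2 hw) hw'
      rw [this]
      have h1 := hφ (p * (2 * (g + 1) + 2) + w)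
      nlinarith [mul_nonneg hH0 hDn]
    · -- the letter `κ_v`
      have hv := hB v (List.mem_of_getElem? hx)
      have hRpos : ∀ e : ℕ, (R : ℤ) ≤ (R : ℤ) ^ (e + 1) := by
        intro e
        have h1 : (1 : ℤ) ≤ R := by exact_mod_cast (by omega : 1 ≤ R)
        have h2 : (1 : ℤ) ≤ (R : ℤ) ^ e := one_le_pow₀ h1
        rw [pow_succ]
        nlinarith
      have hSR : ∀ j : ℕ, ((SR (g + 1) R p j : ℕ) : ℤ) =
          ∑ i ∈ Finset.range g, (R : ℤ) ^ (p * (2 * (g + 1) + 2) + (2 * i + j) + 1) := by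
        intro j
        unfold SR
        rw [Nat.add_sub_cancel]
        push_cast
        rfl
      have hSRge : ∀ j : ℕ, (R : ℤ) ≤ ((SR (g + 1) R p j : ℕ) : ℤ) := by
        intro j
        rw [hSR]
        have h0 : 0 ∈ Finset.range g := Finset.mem_range.2 (by omega)
        refine (hRpos (p * (2 * (g + 1) + 2) + (2 * 0 + j))).trans ?_
        exact Finset.single_le_sum
          (f := fun i => (R : ℤ) ^ (p * (2 * (g + 1) + 2) + (2 * i + j) + 1))
          (fun i _ => by positivity) h0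
      have hbd : ∀ t : ℤ, |t| ≤ n → (D : ℤ) * t ≤ R := by
        intro t ht
        have h1 : (D : ℤ) * t ≤ D * n :=
          mul_le_mul_of_nonneg_left ((le_abs_self t).trans ht) (Int.natCast_nonneg D)
        have h2 : (D : ℤ) * n + 1 ≤ R := by exact_mod_cast hR
        linarith
      have e1 : ((((SR (g + 1) R p 0 : ℕ) : ℤ) - D * v.1).toNat : ℤ) =
          ((SR (g + 1) R p 0 : ℕ) : ℤ) - D * v.1 :=
        Int.toNat_of_nonneg (by have := hSRge 0; have := hbd v.1 hv.1; linarith)
      have e2 : ((((SR (g + 1) R p 1 : ℕ) : ℤ) - D * v.2).toNat : ℤ) =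
          ((SR (g + 1) R p 1 : ℕ) : ℤ) - D * v.2 :=
        Int.toNat_of_nonneg (by have := hSRge 1; have := hbd v.2 hv.2; linarith)
      have hck : ∀ u, u < 2 * (g + 1) + 2 →
          GEN_c (g + 1) s φ (p * (2 * (g + 1) + 2) + u) =
            if u < 2 * g then φ (p * (2 * (g + 1) + 2) + u) +
              φ (p * (2 * (g + 1) + 2) + (2 * g + u % 2)) else 0 := by
        intro u hu
        unfold GEN_c
        rw [hdiv u hu, hmod u hu, hx, hg]
      have hF : ∀ u, u < 2 * g → (φ (p * (2 * (g + 1) + 2) + u) *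
          (ex (g + 1) R D s (p * (2 * (g + 1) + 2) + u) : ℤ) -
        GEN_c (g + 1) s φ (p * (2 * (g + 1) + 2) + u) *
          (R : ℤ) ^ (p * (2 * (g + 1) + 2) + u + 1)) =
          -(φ (p * (2 * (g + 1) + 2) + (2 * g + u % 2)) *
            (R : ℤ) ^ (p * (2 * (g + 1) + 2) + u + 1)) := by
        intro u hu
        rw [hex u (by omega) _ hx, hck u (by omega), if_pos hu]
        have : exl (g + 1) R D p (Lt.k v) u = R ^ (p * (2 * (g + 1) + 2) + u + 1) := by
          unfold exl
          simp only [hg]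
          rw [if_pos hu]
        rw [this]
        push_cast
        ring
      have hF0 : φ (p * (2 * (g + 1) + 2) + 2 * g) *
          (ex (g + 1) R D s (p * (2 * (g + 1) + 2) + 2 * g) : ℤ) -
        GEN_c (g + 1) s φ (p * (2 * (g + 1) + 2) + 2 * g) *
          (R : ℤ) ^ (p * (2 * (g + 1) + 2) + 2 * g + 1) =
          φ (p * (2 * (g + 1) + 2) + 2 * g) * (((SR (g + 1) R p 0 : ℕ) : ℤ) - D * v.1) := by
        rw [hex (2 * g) (by omega) _ hx, hck (2 * g) (by omega), if_neg (lt_irrefl _)]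
        have : exl (g + 1) R D p (Lt.k v) (2 * g) =
            (((SR (g + 1) R p 0 : ℕ) : ℤ) - D * v.1).toNat := by
          unfold exl
          simp only [hg]
          rw [if_neg (lt_irrefl _), if_pos trivial]
        rw [this, e1]
        ring
      have hF1 : φ (p * (2 * (g + 1) + 2) + (2 * g + 1)) *
          (ex (g + 1) R D s (p * (2 * (g + 1) + 2) + (2 * g + 1)) : ℤ) -
        GEN_c (g + 1) s φ (p * (2 * (g + 1) + 2) + (2 * g + 1)) *
          (R : ℤ) ^ (p * (2 * (g + 1) + 2) + (2 * g + 1) + 1) =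
          φ (p * (2 * (g + 1) + 2) + (2 * g + 1)) *
            (((SR (g + 1) R p 1 : ℕ) : ℤ) - D * v.2) := by
        rw [hex (2 * g + 1) (by omega) _ hx, hck (2 * g + 1) (by omega), if_neg (by omega)]
        have : exl (g + 1) R D p (Lt.k v) (2 * g + 1) =
            (((SR (g + 1) R p 1 : ℕ) : ℤ) - D * v.2).toNat := by
          unfold exl
          simp only [hg, hg1]
          rw [if_neg (by omega), if_neg (by omega), if_pos trivial]
        rw [this, e2]
        ring
      have hF2 : ∀ u, 2 * g + 2 ≤ u → u < 2 * (g + 1) + 2 → φ (p * (2 * (g + 1) + 2) + u) *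
          (ex (g + 1) R D s (p * (2 * (g + 1) + 2) + u) : ℤ) -
        GEN_c (g + 1) s φ (p * (2 * (g + 1) + 2) + u) *
          (R : ℤ) ^ (p * (2 * (g + 1) + 2) + u + 1) = 0 := by
        intro u hu1 hu2
        rw [hex u hu2 _ hx, hck u hu2, if_neg (by omega)]
        have : exl (g + 1) R D p (Lt.k v) u = 0 := by
          unfold exl
          simp only [hg, hg1]
          rw [if_neg (by omega), if_neg (by omega), if_neg (by omega)]
        rw [this]
        simp
      have htot : ∑ u ∈ Finset.range (2 * (g + 1) + 2), (φ (p * (2 * (g + 1) + 2) + u) *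
          (ex (g + 1) R D s (p * (2 * (g + 1) + 2) + u) : ℤ) -
        GEN_c (g + 1) s φ (p * (2 * (g + 1) + 2) + u) *
          (R : ℤ) ^ (p * (2 * (g + 1) + 2) + u + 1)) =
          -(D * v.1 * φ (p * (2 * (g + 1) + 2) + 2 * g) +
            D * v.2 * φ (p * (2 * (g + 1) + 2) + (2 * g + 1))) := by
        have hr : Finset.range (2 * (g + 1) + 2) = Finset.range (2 * g + 1 + 1 + 1 + 1) := by
          congr 1
        conv_lhs => rw [hr]
        rw [Finset.sum_range_succ, Finset.sum_range_succ, Finset.sum_range_succ,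
          Finset.sum_range_succ, hF0, hF1, hF2 (2 * g + 1 + 1) (by omega) (by omega),
          hF2 (2 * g + 1 + 1 + 1) (by omega) (by omega),
          Finset.sum_congr rfl fun u hu => hF u (Finset.mem_range.1 hu), GEN_even]
        have s0 : ∑ i ∈ Finset.range g, -(φ (p * (2 * (g + 1) + 2) + (2 * g + (2 * i + 0) % 2)) *
            (R : ℤ) ^ (p * (2 * (g + 1) + 2) + (2 * i + 0) + 1)) =
            -(φ (p * (2 * (g + 1) + 2) + 2 * g) * ((SR (g + 1) R p 0 : ℕ) : ℤ)) := by
          rw [hSR, Finset.mul_sum, ← Finset.sum_neg_distrib]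
          refine Finset.sum_congr rfl fun i _ => ?_
          rw [show (2 * i + 0) % 2 = 0 by omega, add_zero]
        have s1 : ∑ i ∈ Finset.range g, -(φ (p * (2 * (g + 1) + 2) + (2 * g + (2 * i + 1) % 2)) *
            (R : ℤ) ^ (p * (2 * (g + 1) + 2) + (2 * i + 1) + 1)) =
            -(φ (p * (2 * (g + 1) + 2) + (2 * g + 1)) * ((SR (g + 1) R p 1 : ℕ) : ℤ)) := by
          rw [hSR, Finset.mul_sum, ← Finset.sum_neg_distrib]
          refine Finset.sum_congr rfl fun i _ => ?_
          rw [show (2 * i + 1) % 2 = 1 by omega]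
        rw [s0, s1]
        ring
      rw [htot, abs_neg]
      have a1 : |(D : ℤ) * v.1 * φ (p * (2 * (g + 1) + 2) + 2 * g)| ≤ D * n * H := by
        rw [abs_mul, abs_mul, Nat.abs_cast]
        exact mul_le_mul (mul_le_mul_of_nonneg_left hv.1 (Int.natCast_nonneg D)) (hφ _)
          (abs_nonneg _) hDn
      have a2 : |(D : ℤ) * v.2 * φ (p * (2 * (g + 1) + 2) + (2 * g + 1))| ≤ D * n * H := by
        rw [abs_mul, abs_mul, Nat.abs_cast]
        exact mul_le_mul (mul_le_mul_of_nonneg_left hv.2 (Int.natCast_nonneg D)) (hφ _)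
          (abs_nonneg _) hDn
      refine (abs_add_le _ _).trans ?_
      nlinarith

theorem GEN : GEN_stmt := by
  intro h n H S₁ D hh
  refine ⟨1 + D * n + 2 * H + S₁ + n * (H * (1 + 2 * (D * n))), fun R hR s hs hB φ hφ hsum => ?_⟩
  have hR1 : D * n + 1 ≤ R := by
    have : 0 ≤ n * (H * (1 + 2 * (D * n))) := Nat.zero_le _
    omega
  have hRz : (1 : ℤ) + D * n + 2 * H + S₁ + n * (H * (1 + 2 * (D * n))) ≤ R := by exact_mod_cast hR
  have hDn : (0 : ℤ) ≤ (D : ℤ) * n := by positivity
  have hH0 : (0 : ℤ) ≤ H := Int.natCast_nonneg H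
  have hS0 : (0 : ℤ) ≤ S₁ := Int.natCast_nonneg S₁
  have hrem0 : (0 : ℤ) ≤ n * (H * (1 + 2 * (D * n))) := by positivity
  have key : |∑ q ∈ Finset.range (n * (2 * h + 2)), GEN_c h s φ q * (R : ℤ) ^ (q + 1)| ≤
      S₁ + n * (H * (1 + 2 * (D * n))) := by
    have e : ∑ q ∈ Finset.range (n * (2 * h + 2)), GEN_c h s φ q * (R : ℤ) ^ (q + 1) =
        ∑ q ∈ Finset.range (n * (2 * h + 2)), φ q * (ex h R D s q : ℤ) -
        ∑ p ∈ Finset.range n, ∑ u ∈ Finset.range (2 * h + 2), (φ (p * (2 * h + 2) + u) *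
          (ex h R D s (p * (2 * h + 2) + u) : ℤ) -
        GEN_c h s φ (p * (2 * h + 2) + u) * (R : ℤ) ^ (p * (2 * h + 2) + u + 1)) := by
      rw [← GEN_block (2 * h + 2) (fun q => φ q * (ex h R D s q : ℤ) -
        GEN_c h s φ q * (R : ℤ) ^ (q + 1)) n, Finset.sum_sub_distrib]
      ring
    rw [e]
    refine (abs_sub _ _).trans (add_le_add hsum ?_)
    refine (Finset.abs_sum_le_sum_abs _ _).trans ?_
    refine (Finset.sum_le_sum fun p _ => GEN_pos h n H D R hh hR1 s hB φ hφ p).trans ?_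
    rw [Finset.sum_const, Finset.card_range, nsmul_eq_mul]
  intro p u v hpv hu
  have hp : p < n := by
    have h1 : p < s.toList.length := by
      by_contra hcon
      rw [List.getElem?_eq_none (by omega)] at hpv
      cases hpv
    exact lt_of_lt_of_le h1 hs
  have hq : p * (2 * h + 2) + u < n * (2 * h + 2) := by
    calc p * (2 * h + 2) + u < p * (2 * h + 2) + (2 * h + 2) := by omega
      _ = (p + 1) * (2 * h + 2) := by ring
      _ ≤ n * (2 * h + 2) := Nat.mul_le_mul_right _ hp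
  have h0 := GEN_digits (R : ℤ) (2 * H) (S₁ + n * (H * (1 + 2 * (D * n)))) (by linarith)
    (by linarith) (by linarith) _ (GEN_c h s φ) (GEN_c_le h H s φ hφ) key _ hq
  have hdiv : (p * (2 * h + 2) + u) / (2 * h + 2) = p := by
    rw [Nat.add_comm, Nat.add_mul_div_right _ _ (by omega), Nat.div_eq_of_lt (by omega),
      Nat.zero_add]
  have hmod : (p * (2 * h + 2) + u) % (2 * h + 2) = u := by
    rw [Nat.add_comm, Nat.add_mul_mod_self_right, Nat.mod_eq_of_lt (by omega)]
  unfold GEN_c at h0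
  rw [hdiv, hmod, hpv] at h0
  simp only at h0
  rw [if_pos hu] at h0
  linarith

end WZ
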